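import Pool.Agent.H54.WM.Targets

/-!
# PI: the collapse of the structure of the terms
-/

open Ordinal Cardinal Order Set
open scoped ZFSet

universe u

namespace Pool.Agent.H14.WM.PI

open _root_.HD Pool.Agent.H54.WM

theorem valid (hLOS : T_LOS.{u}) (hTR : Pool.Agent.H54.WM.T_TR.{u}) {ξ κ : Ordinal.{u}}
    {j : ZFSet.{u} → ZFSet.{u}} (h : Bas ξ κ j) (φ : Fml)
    (hφ : ∀ v : ℕ → ZFSet.{u}, (∀ n, HOD (v n)) → Sat HOD φ v) (t : ℕ → Tm κ) :
    SatT (ME ξ j) (MQ ξ j) φ t := by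
  obtain ⟨-, hj, -⟩ := hTR ξ κ j h
  have hc : tup (List.map (fun n => (t n).b) (List.range (bd φ))) ∈ HV κ :=
    tup_mem_HV h.lκ fun x hx => by
      obtain ⟨n, -, rfl⟩ := List.mem_map.1 hx
      exact (t n).hb
  refine (hLOS ξ κ j h φ t (bd φ) _ le_rfl hc fun n hn => ?_).2 ?_
  · rw [pr_tup]
    simp [sv, hn]
  · have e : TS ξ φ (fun n => (t n).f) = HV ξ := by
      ext w
      rw [mem_TS]
      refine ⟨fun h1 => h1.1, fun h1 => ⟨h1, hφ _ fun n => ?_⟩⟩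
      exact hod_ap (t n).hf (mem_HV.1 (pr_mem_HV h.lξ n h1)).2
    rw [e, hj]
    exact hc

theorem X (hLOS : T_LOS.{u}) (hTR : Pool.Agent.H54.WM.T_TR.{u}) (hWFT : T_WFT.{u})
    (hCOL : T_COL.{u}) (hSL : T_SL.{u}) : T_PI.{u} := by
  intro ξ κ j h hCC
  have V := valid hLOS hTR h
  obtain ⟨π, h1, h2, h3⟩ := hCOL (Tm κ) (fun s t => ME ξ j s t) (fun s t => MQ ξ j s t)
    (hWFT ξ κ j h hCC)
    (fun s => V (.eq 0 0) (fun v _ => rfl) fun _ => s)
    (fun s t hst => by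
      by_contra hts
      exact V (.neg (.and (.eq 0 1) (.neg (.eq 1 0))))
        (fun v _ h4 => h4.2 (Eq.symm h4.1)) (tcons s fun _ => t) ⟨hst, hts⟩)
    (fun r s t hrs hst => by
      by_contra hrt
      exact V (.neg (.and (.and (.eq 0 1) (.eq 1 2)) (.neg (.eq 0 2))))
        (fun v _ h4 => h4.2 (Eq.trans h4.1.1 h4.1.2)) (tcons r (tcons s fun _ => t))
        ⟨⟨hrs, hst⟩, hrt⟩)
    (fun s s' t t' hs ht hst => by
      by_contra hst'
      exact V (.neg (.and (.and (.eq 0 1) (.eq 2 3)) (.and (.mem 0 2) (.neg (.mem 1 3)))))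
        (fun v _ h4 => h4.2.2 (by
          have e1 : v 0 = v 1 := h4.1.1
          have e2 : v 2 = v 3 := h4.1.2
          have e3 : v 0 ∈ v 2 := h4.2.1
          rw [e1, e2] at e3
          exact e3)) (tcons s (tcons s' (tcons t fun _ => t'))) ⟨⟨hs, ht⟩, hst, hst'⟩)
    (fun s t hst => by
      by_contra hn
      refine V (.neg (.and (.neg (.ex (.neg (.and (.neg (.and (.mem 0 1) (.neg (.mem 0 2))))
        (.neg (.and (.mem 0 2) (.neg (.mem 0 1)))))))) (.neg (.eq 0 1)))) ?_ (tcons s fun _ => t)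
        ⟨?_, hn⟩
      · rintro v hv ⟨h4, h5⟩
        refine h5 (ZFSet.ext fun z => ?_)
        by_contra h6
        refine h4 ?_
        by_cases hz : z ∈ v 0
        · refine ⟨z, HOD_tra _ (hv 0) z hz, fun h7 => h7.1 ⟨hz, fun h8 => ?_⟩⟩
          exact h6 ⟨fun _ => h8, fun _ => hz⟩
        · by_cases hz' : z ∈ v 1
          · exact ⟨z, HOD_tra _ (hv 1) z hz', fun h7 => h7.2 ⟨hz', hz⟩⟩
          · exact absurd ⟨fun h => absurd h hz, fun h => absurd h hz'⟩ h6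
      · rintro ⟨r, h4⟩
        exact h4 ⟨fun h5 => h5.2 ((hst r).1 h5.1), fun h5 => h5.2 ((hst r).2 h5.1)⟩)
    (hSL ξ κ j h)
  exact ⟨π, h1, h2, fun t x hx => by
    obtain ⟨s, -, hs⟩ := h3 t x hx
    exact ⟨s, hs⟩⟩

end Pool.Agent.H14.WM.PI
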