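import Pool.Agent.H54.WM.Targets

/-!
# SD: the terms for the elements of `(V_ κ)^HOD`
-/

open Ordinal Cardinal Order Set
open scoped ZFSet

universe u

namespace Pool.Agent.H14.WM.SD

open _root_.HD Pool.Agent.H54.WM

theorem tsm {ξ : Ordinal.{u}} {a b f g : ZFSet.{u}} :
    tup [a, b] ∈ TS ξ (.mem 0 1) (sv [f, g]) ↔ tup [a, b] ∈ HV ξ ∧ ap f a ∈ ap g b := by
  rw [mem_TS]
  refine and_congr_right fun _ => ?_
  show ap f (pr 0 (tup [a, b])) ∈ ap g (pr 1 (tup [a, b])) ↔ _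
  rw [pr_tup, pr_tup]
  exact Iff.rfl

theorem tse {ξ : Ordinal.{u}} {a b f g : ZFSet.{u}} :
    tup [a, b] ∈ TS ξ (.eq 0 1) (sv [f, g]) ↔ tup [a, b] ∈ HV ξ ∧ ap f a = ap g b := by
  rw [mem_TS]
  refine and_congr_right fun _ => ?_
  show ap f (pr 0 (tup [a, b])) = ap g (pr 1 (tup [a, b])) ↔ _
  rw [pr_tup, pr_tup]
  exact Iff.rfl

theorem d0tup (i a b : ℕ) : D0.{u} fun v => tup [v a, v b] ∈ v i := by
  refine (D0.exMem (R := fun p v => p = tup [v a, v b]) i (D0.tup2 0 (a + 1) (b + 1))).congr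
    fun v => ?_
  constructor
  · exact fun h => ⟨_, h, rfl⟩
  · rintro ⟨p, h, rfl⟩
    exact h

theorem d0pair (i a b : ℕ) : D0.{u} fun v => ZFSet.pair (v a) (v b) ∈ v i := by
  refine (D0.exMem (R := fun p v => p = ZFSet.pair (v a) (v b)) i
    (D0.pair 0 (a + 1) (b + 1))).congr fun v => ?_
  constructor
  · exact fun h => ⟨_, h, rfl⟩
  · rintro ⟨p, h, rfl⟩
    exact h

theorem vhTS (hTSH : T_TSH.{u}) {ξ : Ordinal.{u}} (φ : Fml) {f g : ZFSet.{u}} (hf : HOD f)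
    (hg : HOD g) : VH ξ (TS ξ φ (sv [f, g])) := by
  refine ⟨hTSH ξ φ _ fun n => ?_, fun x hx => HV_sub _ (mem_TS.1 hx).1⟩
  rcases n with _ | _ | n
  · exact hf
  · exact hg
  · exact hod_empty

theorem vhEmpty (ξ : Ordinal.{u}) : VH ξ (∅ : ZFSet.{u}) :=
  ⟨hod_empty, fun _ h => absurd h (ZFSet.notMem_empty _)⟩

theorem vhSv {ξ : Ordinal.{u}} {x y : ZFSet.{u}} (hx : VH ξ x) (hy : VH ξ y) :
    ∀ n, VH ξ (sv [x, y] n) := by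
  rintro (_ | _ | n)
  · exact hx
  · exact hy
  · exact vhEmpty ξ

theorem tupHV {ξ : Ordinal.{u}} (hξ : IsSuccLimit ξ) {a b : ZFSet.{u}} (ha : a ∈ HV ξ)
    (hb : b ∈ HV ξ) : tup [a, b] ∈ HV ξ :=
  tup_mem_HV hξ fun x hx => by
    simp only [List.mem_cons, List.not_mem_nil, or_false] at hx
    rcases hx with rfl | rfl
    · exact ha
    · exact hb

/-- the common part of (2) and (4) -/
theorem key (hTR : Pool.Agent.H54.WM.T_TR.{u}) (hTSH : T_TSH.{u}) {ξ κ : Ordinal.{u}}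
    {j : ZFSet.{u} → ZFSet.{u}}
    (h : Bas ξ κ j) (s : Tm κ) {d k : ZFSet.{u}} (hd : d ∈ HV κ) (hk : HOD k)
    (hm : tup [s.b, d] ∈ j (TS ξ (.mem 0 1) (sv [s.f, k])))
    (H : ∀ w ∈ HV ξ, ∀ w' ∈ HV ξ, ap s.f w ∈ ap k w' → ap s.f w ∈ HV ξ) :
    ∃ (c : ZFSet.{u}) (hc : c ∈ HV κ), MQ ξ j s (idt ξ c hc) := by
  obtain ⟨hT, -, -⟩ := hTR ξ κ j h
  have hg := VH_gr (g := s.f) h.lξ s.hf
  have h1 := (hT (fun w w' v => tup [w, w'] ∈ v 0 → ∃ p ∈ v 1, ∃ x y, p = ZFSet.pair x y ∧ x = w)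
    ((d0tup 2 0 1).imp (D0.exMem (R := fun p v => ∃ x y, p = ZFSet.pair x y ∧ x = v 0) 3
      (D0.exPair (R := fun x _ v => x = v 1) 0 (D0.eq 0 3))))
    (sv [TS ξ (.mem 0 1) (sv [s.f, k]), gr ξ s.f (HV ξ)])
    (vhSv (vhTS hTSH _ s.hf hk) hg)).1 (by
      intro w hw w' hw' h2
      have h3 := (tsm.1 h2).2
      exact ⟨ZFSet.pair w (ap s.f w), mem_gr.2 ⟨w, hw, rfl, H w hw w' hw' h3⟩, w, _, rfl, rfl⟩)
    s.b s.hb d hd hm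
  obtain ⟨p, hp, x, c, rfl, rfl⟩ := h1
  have hp' : ZFSet.pair s.b c ∈ j (gr ξ s.f (HV ξ)) := hp
  have hc : c ∈ HV κ := (of_pair_mem_HV h.lκ (mem_HV_of_VH (h.emb.map _ hg) hp')).2
  refine ⟨c, hc, ?_⟩
  exact (hT (fun w w' v => ZFSet.pair w w' ∈ v 0 → tup [w, w'] ∈ v 1)
    ((d0pair 2 0 1).imp (d0tup 3 0 1))
    (sv [gr ξ s.f (HV ξ), TS ξ (.eq 0 1) (sv [s.f, idf ξ])])
    (vhSv hg (vhTS hTSH _ s.hf (hod_idf ξ)))).1 (by
      intro w hw w' hw' h2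
      obtain ⟨u, hu, h3, h4⟩ := mem_gr.1 h2
      obtain ⟨rfl, h5⟩ := ZFSet.pair_inj.1 h3
      refine tse.2 ⟨tupHV h.lξ hw hw', ?_⟩
      rw [ap_idf hw', h5])
    s.b s.hb c hc hp'

theorem X (hTR : Pool.Agent.H54.WM.T_TR.{u}) (hTSH : T_TSH.{u}) : T_SD.{u} := by
  intro ξ κ j h
  obtain ⟨hT, -, -⟩ := hTR ξ κ j h
  refine ⟨?_, ?_, ?_, ?_⟩
  · intro c d hc hd
    exact (hT (fun w w' v => tup [w, w'] ∈ v 0 ↔ w ∈ w')
      ((d0tup 2 0 1).iff (D0.mem 0 1))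
      (sv [TS ξ (.mem 0 1) (sv [idf ξ, idf ξ]), ∅])
      (vhSv (vhTS hTSH _ (hod_idf ξ) (hod_idf ξ)) (vhEmpty ξ))).1 (by
        intro w hw w' hw'
        show tup [w, w'] ∈ TS ξ (.mem 0 1) (sv [idf ξ, idf ξ]) ↔ _
        rw [tsm, ap_idf hw, ap_idf hw']
        exact ⟨fun h => h.2, fun h2 => ⟨tupHV h.lξ hw hw', h2⟩⟩)
      c hc d hd
  · intro s d hd hm
    refine key hTR hTSH h s hd (hod_idf ξ) hm fun w hw w' hw' h1 => ?_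
    rw [ap_idf hw'] at h1
    exact HV_tra hw' h1
  · intro x hx c hc
    exact (hT (fun w w' v => tup [w, w'] ∈ v 0 ↔ w ∈ v 1)
      ((d0tup 2 0 1).iff (D0.mem 0 3))
      (sv [TS ξ (.mem 0 1) (sv [idf ξ, cst ξ x]), x])
      (vhSv (vhTS hTSH _ (hod_idf ξ) (hod_cst hx.1)) hx)).1 (by
        intro w hw w' hw'
        show tup [w, w'] ∈ TS ξ (.mem 0 1) (sv [idf ξ, cst ξ x]) ↔ w ∈ x
        rw [tsm, ap_idf hw, ap_cst hw']
        exact ⟨fun h => h.2, fun h2 => ⟨tupHV h.lξ hw hw', h2⟩⟩)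
      c hc ∅ (empty_mem_HV h.lκ)
  · intro x hx s hm
    refine key hTR hTSH h s (empty_mem_HV h.lκ) (hod_cst hx.1) hm fun w hw w' hw' h1 => ?_
    rw [ap_cst hw'] at h1
    exact mem_HV_of_VH hx h1

end Pool.Agent.H14.WM.SD
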